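import Mathlib

/-! Two terms of the alternating sums. -/

namespace Pool.Agent.MP_6f2ed2_nt.H52

open Filter Finset Topology

/-- corrected sum of square roots -/
noncomputable def alA (n : ℕ) : ℝ :=
  ∑ ν ∈ Icc 1 n, (-1 : ℝ) ^ ν * √ν - (-1) ^ n * (√n / 2 + 1 / (8 * √n))

/-- corrected sum of higher powers -/
noncomputable def alB (n : ℕ) : ℝ :=
  ∑ ν ∈ Icc 1 n, (-1 : ℝ) ^ ν * (√ν * ν ^ 2) - (-1) ^ n * (√n ^ 5 / 2 + 5 * √n ^ 3 / 8)

theorem abs_sgn (n : ℕ) (x : ℝ) : |(-1) ^ n * x| = |x| := by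
  rw [abs_mul, abs_pow, abs_neg, abs_one, one_pow, one_mul]

theorem alA_step (n : ℕ) (hn : 1 ≤ n) : |alA (n + 1) - alA n| ≤ 1 / n - 1 / (n + 1 : ℕ) := by
  have h1 : (1 : ℝ) ≤ √n := Real.one_le_sqrt.2 (by exact_mod_cast hn)
  have h2 : √n ≤ √(n + 1 : ℕ) := Real.sqrt_le_sqrt (by push_cast; linarith)
  have h3 : √(n : ℝ) ^ 2 = n := Real.sq_sqrt (by positivity)
  have h4 : √((n + 1 : ℕ) : ℝ) ^ 2 = (n + 1 : ℕ) := Real.sq_sqrt (by positivity)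
  have h5 : ((n + 1 : ℕ) : ℝ) = n + 1 := by push_cast; ring
  rw [alA, alA, sum_Icc_succ_top (by omega)]
  set s := √(n : ℝ)
  set t := √((n + 1 : ℕ) : ℝ)
  have h6 : (t - s) * (t + s) = 1 := by linarith
  have h7 : (t - s) ^ 3 = t + s - 4 * s * t * (t - s) := by linear_combination (t + s) * h6
  have e : ∀ S : ℝ, S + (-1) ^ (n + 1) * t - (-1) ^ (n + 1) * (t / 2 + 1 / (8 * t)) -
      (S - (-1) ^ n * (s / 2 + 1 / (8 * s))) = (-1) ^ n * ((t - s) ^ 3 / (8 * s * t)) := fun S => by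
    have : t ≠ 0 := (by linarith : 0 < t).ne'
    rw [h7, pow_succ]; field_simp; ring
  have d0 : 0 ≤ t - s := by linarith
  have e2 : 1 / (n : ℝ) - 1 / (n + 1 : ℕ) = 1 / (s ^ 2 * t ^ 2) := by
    rw [h3, h4, h5]
    have : (n : ℝ) ≠ 0 := by positivity
    field_simp
    ring
  rw [e, abs_sgn, abs_of_nonneg (by positivity), e2,
    div_le_div_iff₀ (by positivity) (by positivity)]
  have a1 : (t - s) * s ≤ 1 := by nlinarith
  have a2 : (t - s) * t ≤ 1 := by nlinarith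
  have a3 : t - s ≤ 1 := by nlinarith
  calc _ = (t - s) * ((t - s) * s) * ((t - s) * t) * (s * t) := by ring
    _ ≤ 1 * 1 * 1 * (s * t) := by gcongr
    _ ≤ _ := by nlinarith

theorem alA_lim : ∃ κ : ℝ, ∀ n : ℕ, 1 ≤ n → |alA n - κ| ≤ 1 / n := by
  have h : ∀ n m : ℕ, n ≤ m → |alA (m + 1) - alA (n + 1)| ≤ 1 / (n + 1 : ℕ) - 1 / (m + 1 : ℕ) := by
    intro n m hm
    induction m, hm using Nat.le_induction with
    | base => simp
    | succ m hm ih =>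
      linarith [alA_step (m + 1) (by omega), abs_sub_le (alA (m + 1 + 1)) (alA (m + 1)) (alA (n + 1))]
  have h' : ∀ n m : ℕ, n ≤ m → dist (alA (n + 1)) (alA (m + 1)) ≤ 1 / (n + 1 : ℕ) := fun n m hm => by
    rw [dist_comm, Real.dist_eq]
    exact (h n m hm).trans (sub_le_self _ (by positivity))
  obtain ⟨κ, hκ⟩ := cauchySeq_tendsto_of_complete (cauchySeq_of_le_tendsto_0' _ h'
    (tendsto_one_div_atTop_nhds_zero_nat.comp (tendsto_add_atTop_nat 1)))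
  refine ⟨κ, fun n hn => ?_⟩
  obtain ⟨n, rfl⟩ := Nat.exists_eq_add_of_le' hn
  exact le_of_tendsto (tendsto_const_nhds.dist hκ) ((eventually_ge_atTop n).mono (h' n))

theorem alB_le (n : ℕ) : |alB n| ≤ n := by
  induction n with
  | zero => simp [alB]
  | succ n ih =>
    have h1 : 0 ≤ √(n : ℝ) := Real.sqrt_nonneg _
    have h2 : √n ≤ √(n + 1 : ℕ) := Real.sqrt_le_sqrt (by push_cast; linarith)
    have h3 : √(n : ℝ) ^ 2 = n := Real.sq_sqrt (by positivity)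
    have h4 : √((n + 1 : ℕ) : ℝ) ^ 2 = (n + 1 : ℕ) := Real.sq_sqrt (by positivity)
    have h5 : ((n + 1 : ℕ) : ℝ) = n + 1 := by push_cast; ring
    set s := √(n : ℝ) with hs
    set t := √((n + 1 : ℕ) : ℝ) with ht
    have h6 : (t - s) * (t + s) = 1 := by linarith
    have e : alB (n + 1) = alB n + (-1) ^ n * ((5 * (t - s) - (t - s) ^ 5) / 32) := by
      rw [alB, alB, sum_Icc_succ_top (by omega), ← hs, ← ht, ← h4, pow_succ (-1 : ℝ)]
      linear_combination (-(-1) ^ n * (5 * (t + s) ^ 3 +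
        5 * (t - s) * (2 * (t - s) * (t + s) - 1)) / 32) * h6
    have d0 : 0 ≤ t - s := by linarith
    have d1 : t - s ≤ 1 := by nlinarith
    have d2 := pow_nonneg d0 5
    have d3 := pow_le_one₀ d0 d1 (n := 5)
    have d4 : |(5 * (t - s) - (t - s) ^ 5) / 32| ≤ 1 := abs_le.2 ⟨by linarith, by linarith⟩
    rw [e, h5]
    exact (abs_add_le _ _).trans (add_le_add ih ((abs_sgn _ _).trans_le d4))

theorem est (s u θ : ℝ) (hs : 1 ≤ s) (hu : s ≤ u) (h0 : 0 ≤ θ) (h1 : θ ≤ 1)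
    (h : u ^ 2 = s ^ 2 + θ) :
    |s * (θ ^ 2 + θ / 2) + θ ^ 2 / (4 * s) - (2 * θ - 1) * (u ^ 3 - s ^ 3)| ≤ 6 * u ^ 2 := by
  have a1 : 0 ≤ s * (θ ^ 2 + θ / 2) := by positivity
  have a2 : s * (θ ^ 2 + θ / 2) ≤ u ^ 2 * 2 :=
    mul_le_mul (by nlinarith) (by nlinarith) (by positivity) (by positivity)
  have a3 : 0 ≤ θ ^ 2 / (4 * s) := by positivity
  have a4 : θ ^ 2 / (4 * s) ≤ u ^ 2 :=
    (div_le_self (by positivity) (by linarith)).trans (by nlinarith)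
  have a5 : u - s ≤ 1 := by nlinarith
  have a6 : |u ^ 3 - s ^ 3| ≤ 1 * (3 * u ^ 2) := by
    rw [show u ^ 3 - s ^ 3 = (u - s) * (u ^ 2 + u * s + s ^ 2) by ring,
      abs_of_nonneg (mul_nonneg (by linarith) (by nlinarith))]
    exact mul_le_mul a5 (by nlinarith) (by nlinarith) zero_le_one
  have a7 : |(2 * θ - 1) * (u ^ 3 - s ^ 3)| ≤ 1 * (1 * (3 * u ^ 2)) := by
    rw [abs_mul]
    exact mul_le_mul (abs_le.2 ⟨by linarith, by linarith⟩) a6 (abs_nonneg _) zero_le_one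
  rw [abs_le] at a7 ⊢
  constructor <;> linarith [a7.1, a7.2]

theorem alt2 : ∃ κ C : ℝ, ∀ N : ℝ, 1 ≤ N →
    |(∑ ν ∈ Icc 1 ⌊N⌋₊, (-1 : ℝ) ^ ν * √ν * (2 * Real.pi * N ^ 2 - 2 * Real.pi * ν ^ 2)) -
      κ * (2 * Real.pi * N ^ 2) - (-1) ^ ⌊N⌋₊ * (Real.pi * (2 * (N - ⌊N⌋₊) - 1)) * (N * √N)| ≤ C * N ∧
    |∑ ν ∈ Icc 1 ⌊N⌋₊, (-1 : ℝ) ^ ν * √ν| ≤ C * N := by
  obtain ⟨κ, hκ⟩ := alA_lim
  refine ⟨κ, 48 + |κ|, fun N hN => ?_⟩
  have hp := Real.pi_le_four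
  have hp0 := Real.pi_pos
  set n := ⌊N⌋₊ with hn
  have n1 : 1 ≤ n := Nat.floor_pos.2 hN
  have n2 : (1 : ℝ) ≤ n := by exact_mod_cast n1
  have n3 : (n : ℝ) ≤ N := Nat.floor_le (by linarith)
  have n4 : N < n + 1 := Nat.lt_floor_add_one N
  have h1 : (1 : ℝ) ≤ √n := Real.one_le_sqrt.2 n2
  have h2 : √n ≤ √N := Real.sqrt_le_sqrt n3
  have h3 : √(n : ℝ) ^ 2 = n := Real.sq_sqrt (by positivity)
  have h4 : √N ^ 2 = N := Real.sq_sqrt (by linarith)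
  have b1 := hκ n n1
  have b2 := alB_le n
  have b3 := est (√n) (√N) (N - n) h1 h2 (by linarith) (by linarith) (by linarith)
  have k0 := abs_nonneg κ
  constructor
  · have e1 : ∑ ν ∈ Icc 1 n, (-1 : ℝ) ^ ν * √ν * (2 * Real.pi * N ^ 2 - 2 * Real.pi * ν ^ 2) =
        2 * Real.pi * N ^ 2 * ∑ ν ∈ Icc 1 n, (-1 : ℝ) ^ ν * √ν -
          2 * Real.pi * ∑ ν ∈ Icc 1 n, (-1 : ℝ) ^ ν * (√ν * ν ^ 2) := by
      rw [mul_sum, mul_sum, ← sum_sub_distrib]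
      exact sum_congr rfl fun ν _ => by ring
    rw [e1, ← sub_add_cancel (∑ ν ∈ Icc 1 n, (-1 : ℝ) ^ ν * √ν)
      ((-1) ^ n * (√n / 2 + 1 / (8 * √n))), ← alA, ← sub_add_cancel
      (∑ ν ∈ Icc 1 n, (-1 : ℝ) ^ ν * (√ν * ν ^ 2)) ((-1) ^ n * (√n ^ 5 / 2 + 5 * √n ^ 3 / 8)), ← alB]
    set s := √(n : ℝ)
    set u := √N
    set θ := N - n with hθ
    have e3 : N = s ^ 2 + θ := by linarith
    have e2 : 2 * Real.pi * N ^ 2 * (alA n + (-1) ^ n * (s / 2 + 1 / (8 * s))) -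
        2 * Real.pi * (alB n + (-1) ^ n * (s ^ 5 / 2 + 5 * s ^ 3 / 8)) - κ * (2 * Real.pi * N ^ 2) -
        (-1) ^ n * (Real.pi * (2 * θ - 1)) * (N * u) =
        2 * Real.pi * N ^ 2 * (alA n - κ) + -(2 * Real.pi * alB n) + (-1) ^ n * (Real.pi *
          (s * (θ ^ 2 + θ / 2) + θ ^ 2 / (4 * s) - (2 * θ - 1) * (u ^ 3 - s ^ 3))) := by
      rw [show N * u = u ^ 3 by rw [← h4]; ring]
      rw [show N ^ 2 = (s ^ 2 + θ) ^ 2 by rw [← e3]]
      field_simp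
      ring
    rw [e2]
    refine (abs_add_three _ _ _).trans ?_
    rw [abs_sgn, abs_neg, abs_mul, abs_mul _ (alB n), abs_mul Real.pi, abs_of_pos hp0,
      abs_of_nonneg (a := 2 * Real.pi * N ^ 2) (by positivity),
      abs_of_nonneg (a := 2 * Real.pi) (by positivity)]
    have c1 : 2 * Real.pi * N ^ 2 * |alA n - κ| ≤ 2 * 4 * N ^ 2 * (2 / N) := by
      gcongr
      refine b1.trans ?_
      rw [div_le_div_iff₀ (by linarith) (by linarith)]; linarith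
    have c2 : 2 * 4 * N ^ 2 * (2 / N) = 16 * N := by field_simp; ring
    have c3 : 2 * Real.pi * |alB n| ≤ 2 * 4 * N := by gcongr; exact b2.trans n3
    have c4 := mul_le_mul hp b3 (abs_nonneg _) (by norm_num)
    have c5 : 0 ≤ |κ| * N := by positivity
    rw [h4] at c4
    linarith
  · have e1 : ∑ ν ∈ Icc 1 n, (-1 : ℝ) ^ ν * √ν =
        (alA n - κ) + κ + (-1) ^ n * (√n / 2 + 1 / (8 * √n)) := by rw [alA]; ring
    rw [e1]
    refine (abs_add_three _ _ _).trans ?_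
    rw [abs_sgn, abs_of_nonneg (a := √n / 2 + _) (by positivity)]
    have c1 : 1 / (n : ℝ) ≤ 1 := div_le_self zero_le_one n2
    have c2 : 1 / (8 * √(n : ℝ)) ≤ 1 := div_le_self zero_le_one (by linarith)
    nlinarith

end Pool.Agent.MP_6f2ed2_nt.H52
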