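import Pool.Agent.MP_6f2ed2_nt.H52.Shift

/-! The limit of the terms near the turning point. -/

namespace Pool.Agent.MP_6f2ed2_nt.H52

open Complex MeasureTheory Set Filter Topology Pool.Agent.MP_6f2ed2_nt.H1

/-- the limit kernel -/
noncomputable def gg (y : ℝ) : ℂ :=
  -(I * Real.pi / 2) * dslope cexp 0 (-(I * (Real.pi * y ^ 2 / 2 : ℝ)))

theorem gg_eq {y : ℝ} (hy : y ≠ 0) :
    gg y = (cexp (-(I * (Real.pi * y ^ 2 / 2 : ℝ))) - 1) / (y : ℂ) ^ 2 := by
  have h1 : (y : ℂ) ≠ 0 := ofReal_ne_zero.2 hy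
  have h2 : (Real.pi : ℂ) ≠ 0 := ofReal_ne_zero.2 Real.pi_ne_zero
  have h3 : -(I * (Real.pi * y ^ 2 / 2 : ℝ)) ≠ 0 := by simp [hy]
  rw [gg, dslope_of_ne _ h3, slope_def_field, Complex.exp_zero]
  push_cast
  field_simp
  ring

theorem cont_gg : Continuous gg := by
  have : Differentiable ℂ (dslope cexp 0) := by
    rw [← differentiableOn_univ, differentiableOn_dslope univ_mem]
    exact differentiable_exp.differentiableOn
  exact continuous_const.mul (this.continuous.comp (by fun_prop))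

theorem norm_gg (y : ℝ) : ‖gg y‖ ≤ 4 * (1 + y ^ 2)⁻¹ := by
  have hp := Real.pi_le_four
  have hp0 := Real.pi_pos
  rcases eq_or_ne y 0 with rfl | hy
  · simp [gg, abs_of_pos hp0]
    linarith
  · rw [gg_eq hy, show (4 : ℝ) = 2 * 2 by norm_num]
    refine osc_le le_rfl fun _ => ?_
    rw [abs_of_nonneg (by positivity)]
    nlinarith [sq_nonneg y]

theorem norm_ch (x y : ℝ) : ‖cexp (2 * Real.pi * I * x * y)‖ = 1 := by
  rw [norm_exp]; simp

/-- the transform of the limit kernel -/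
noncomputable def Ft (x : ℝ) : ℂ := ∫ y : ℝ, cexp (2 * Real.pi * I * x * y) * gg y

theorem norm_Ft (x : ℝ) : ‖Ft x‖ ≤ 4 * Real.pi := by
  refine (norm_integral_le_of_norm_le (integrable_inv_one_add_sq.const_mul 4)
    (Eventually.of_forall fun y => ?_)).trans (le_of_eq ?_)
  · rw [norm_mul, norm_ch, one_mul]; exact norm_gg y
  · rw [integral_const_mul, integral_univ_inv_one_add_sq]

/-- the rescaled kernel -/
noncomputable def Wk (N x y : ℝ) : ℂ :=
  cexp ((y / 2 * N⁻¹ - y ^ 2 * N⁻¹ ^ 2 : ℝ) - I * (Real.pi * (x ^ 2 * N⁻¹) * y : ℝ)) *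
    ((cexp (-(I * (Real.pi * (N - x) ^ 2 * (Real.exp (y / N) - 1 - y / N) : ℝ))) - 1) / (y : ℂ) ^ 2)

theorem Kr_scale {N : ℝ} (hN : 0 < N) (x : ℝ) :
    (N : ℂ)⁻¹ * ∫ y, Kr (Real.pi * (N - x) ^ 2)
      (2 * Real.pi * N ^ 2 - 2 * (Real.pi * (N - x) ^ 2)) y =
      ∫ y : ℝ, cexp (2 * Real.pi * I * x * y) * Wk N x y := by
  have h := Measure.integral_comp_div (Kr (Real.pi * (N - x) ^ 2)
      (2 * Real.pi * N ^ 2 - 2 * (Real.pi * (N - x) ^ 2))) N
  have h0 : (N : ℂ) ≠ 0 := ofReal_ne_zero.2 hN.ne'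
  have e : ∀ y : ℝ, Kr (Real.pi * (N - x) ^ 2)
      (2 * Real.pi * N ^ 2 - 2 * (Real.pi * (N - x) ^ 2)) (y / N) =
      (N : ℂ) ^ 2 * (cexp (2 * Real.pi * I * x * y) * Wk N x y) := fun y => by
    rw [Kr, Wk, Phi, ← mul_assoc (cexp _), ← Complex.exp_add, ofReal_div y N, div_pow,
      div_div_eq_mul_div, mul_left_comm, mul_div_assoc', mul_comm ((N : ℂ) ^ 2)]
    congr 2
    push_cast
    field_simp
    ring
  simp only [e] at h
  rw [integral_const_mul, abs_of_pos hN, Complex.real_smul] at h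
  rw [inv_mul_eq_iff_eq_mul₀ h0]
  refine mul_left_cancel₀ h0 ?_
  rw [← h]; ring

theorem norm_Wk {N x : ℝ} (hN : 1 ≤ N) (hx : |x| ≤ N) (y : ℝ) :
    ‖Wk N x y‖ ≤ 96 * (1 + y ^ 2)⁻¹ := by
  have hp := Real.pi_le_four
  have hp0 := Real.pi_pos
  rw [Wk, norm_mul, show (96 : ℝ) = 3 * (2 * 16) by norm_num, mul_assoc 3]
  refine mul_le_mul ?_ (osc_le (by norm_num) fun h => ?_) (norm_nonneg _) (by norm_num)
  · rw [norm_exp, sub_re, ofReal_re, mul_re, I_re, I_im, ofReal_im]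
    refine le_trans (Real.exp_le_exp.2 (show _ ≤ 1 by nlinarith [sq_nonneg (y * N⁻¹ - 1 / 4)])) ?_
    linarith [Real.exp_one_lt_d9]
  · have h1 : |y / N| ≤ 1 := by
      rw [abs_div, abs_of_pos (by linarith : 0 < N), div_le_one (by linarith)]; linarith
    have h2 : (N - x) ^ 2 ≤ 4 * N ^ 2 := by nlinarith [abs_le.1 hx]
    rw [abs_mul, abs_of_nonneg (by positivity)]
    calc _ ≤ 4 * (4 * N ^ 2) * (y / N) ^ 2 := by
          gcongr; exact Real.abs_exp_sub_one_sub_id_le h1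
      _ = _ := by field_simp; ring

section

variable {α : Type} {l : Filter α} {N x : α → ℝ} {B : ℝ}

theorem small_mul (hN : Tendsto N l atTop) (hx : ∀ᶠ a in l, |x a| ≤ B) :
    Tendsto (fun a => x a * (N a)⁻¹) l (𝓝 0) := by
  have t := (hN.inv_tendsto_atTop.abs).const_mul B
  rw [abs_zero, mul_zero] at t
  refine squeeze_zero_norm' ?_ t
  filter_upwards [hx] with a h
  rw [Real.norm_eq_abs, abs_mul]
  exact mul_le_mul_of_nonneg_right h (abs_nonneg _)

theorem Wk_lim (hN : Tendsto N l atTop) (hx : ∀ᶠ a in l, |x a| ≤ B) {y : ℝ} (hy : y ≠ 0) :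
    Tendsto (fun a => Wk (N a) (x a) y) l (𝓝 (gg y)) := by
  have u : Tendsto (fun a => (N a)⁻¹) l (𝓝 0) := hN.inv_tendsto_atTop
  have t1 := small_mul hN hx
  have t2 : Tendsto (fun a => x a ^ 2 * (N a)⁻¹) l (𝓝 0) :=
    small_mul (B := B ^ 2) hN (hx.mono fun a h => by rw [abs_pow]; gcongr)
  have t3 : Tendsto (fun a => N a ^ 2 * (Real.exp (y / N a) - 1 - y / N a) - y ^ 2 / 2) l (𝓝 0) := by
    have t := u.const_mul (|y| ^ 3)
    rw [mul_zero] at t
    refine squeeze_zero_norm' ?_ t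
    filter_upwards [hN.eventually_ge_atTop |y|] with a h
    have h0 : 0 < N a := (abs_pos.2 hy).trans_le h
    have h1 : |y / N a| ≤ 1 := by rwa [abs_div, abs_of_pos h0, div_le_one h0]
    have h2 := Real.exp_bound h1 (n := 3) (by norm_num)
    simp only [Finset.sum_range_succ, Finset.range_zero, Finset.sum_empty, Nat.factorial] at h2
    have e : N a ^ 2 * (Real.exp (y / N a) - 1 - y / N a) - y ^ 2 / 2 = N a ^ 2 *
        (Real.exp (y / N a) - (0 + (y / N a) ^ 0 / (1 : ℕ) + (y / N a) ^ 1 / (Nat.succ 0 * 1 : ℕ) +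
          (y / N a) ^ 2 / (Nat.succ 1 * (Nat.succ 0 * 1) : ℕ))) := by
      push_cast; field_simp; ring
    rw [e, Real.norm_eq_abs, abs_mul, abs_of_nonneg (by positivity)]
    calc _ ≤ N a ^ 2 * (|y / N a| ^ 3 * 1) := by
          gcongr
          exact h2.trans (by gcongr; norm_num)
      _ = _ := by rw [abs_div, abs_of_pos h0]; field_simp
  have t4 : Tendsto (fun a => Real.pi * (N a - x a) ^ 2 * (Real.exp (y / N a) - 1 - y / N a)) l
      (𝓝 (Real.pi * y ^ 2 / 2)) := by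
    have t := ((((tendsto_const_nhds (x := (1 : ℝ))).sub t1).pow 2).const_mul Real.pi).mul
      (t3.add_const (y ^ 2 / 2))
    rw [show Real.pi * (1 - 0) ^ 2 * (0 + y ^ 2 / 2) = Real.pi * y ^ 2 / 2 by ring] at t
    refine t.congr' ?_
    filter_upwards [hN.eventually_gt_atTop 0] with a h
    field_simp
    ring
  have t5 := (((u.const_mul (y / 2)).sub ((u.pow 2).const_mul (y ^ 2))).ofReal.sub
    (((t2.const_mul Real.pi).mul_const y).ofReal.const_mul I)).cexp
  have t6 := t5.mul (((t4.ofReal.const_mul I).neg.cexp.sub_const 1).div_const ((y : ℂ) ^ 2))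
  rw [← gg_eq hy] at t6
  simpa only [mul_zero, ne_eq, OfNat.ofNat_ne_zero, not_false_eq_true, zero_pow, sub_self,
    ofReal_zero, zero_mul, Complex.exp_zero, one_mul, Wk] using t6

theorem lim_core [l.IsCountablyGenerated] (hN : Tendsto N l atTop) (hx : ∀ᶠ a in l, |x a| ≤ B) :
    Tendsto (fun a => (N a : ℂ)⁻¹ * (∫ y, Kr (Real.pi * (N a - x a) ^ 2)
      (2 * Real.pi * N a ^ 2 - 2 * (Real.pi * (N a - x a) ^ 2)) y) - Ft (x a)) l (𝓝 0) := by
  have mW : ∀ N x : ℝ, Measurable (Wk N x) := fun N x => by unfold Wk; fun_prop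
  have ev : ∀ᶠ a in l, 1 ≤ N a ∧ |x a| ≤ N a := by
    filter_upwards [hx, hN.eventually_ge_atTop 1, hN.eventually_ge_atTop B] with a h1 h2 h3
    exact ⟨h2, h1.trans h3⟩
  have t := tendsto_integral_filter_of_dominated_convergence (μ := volume) (l := l)
    (F := fun a y => ‖Wk (N a) (x a) y - gg y‖) (f := fun _ => 0)
    (fun y : ℝ => 100 * (1 + y ^ 2)⁻¹)
    (Eventually.of_forall fun a => ((mW _ _).sub cont_gg.measurable).norm.aestronglyMeasurable)
    (ev.mono fun a h => Eventually.of_forall fun y => by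
      rw [norm_norm]
      linarith [norm_sub_le (Wk (N a) (x a) y) (gg y), norm_Wk h.1 h.2 y, norm_gg y])
    (integrable_inv_one_add_sq.const_mul _)
    (by
      filter_upwards [compl_mem_ae_iff.2 (measure_singleton (0 : ℝ))] with y hy
      exact tendsto_iff_norm_sub_tendsto_zero.1 (Wk_lim hN hx hy))
  rw [integral_zero] at t
  refine squeeze_zero_norm' ?_ t
  filter_upwards [ev] with a h
  have i1 : Integrable fun y : ℝ => cexp (2 * Real.pi * I * x a * y) * Wk (N a) (x a) y :=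
    (integrable_inv_one_add_sq.const_mul 96).mono'
      (Measurable.mul (by fun_prop) (mW _ _)).aestronglyMeasurable
      (Eventually.of_forall fun y => by rw [norm_mul, norm_ch, one_mul]; exact norm_Wk h.1 h.2 y)
  have i2 : Integrable fun y : ℝ => cexp (2 * Real.pi * I * x a * y) * gg y :=
    (integrable_inv_one_add_sq.const_mul 4).mono'
      (Continuous.mul (by fun_prop) cont_gg).aestronglyMeasurable
      (Eventually.of_forall fun y => by rw [norm_mul, norm_ch, one_mul]; exact norm_gg y)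
  rw [Kr_scale (by linarith [h.1]), Ft, ← integral_sub i1 i2]
  refine (norm_integral_le_integral_norm _).trans (le_of_eq ?_)
  congr 1
  funext y
  rw [← mul_sub, norm_mul, norm_ch, one_mul]

end

end Pool.Agent.MP_6f2ed2_nt.H52
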