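import Pool.Agent.MP_6f2ed2_nt.H52.Total
import Pool.Agent.MP_6f2ed2_nt.H52.Alt
import Pool.Agent.MP_6f2ed2_nt.H1.Assemble

/-! The second term of the asymptotic formula. -/

namespace Pool.Agent.MP_6f2ed2_nt.H52

open Complex MeasureTheory Set Filter Topology Asymptotics Pool.Agent.MP_6f2ed2_nt.H1

theorem f_bound (t : ℝ) : ‖f_f t‖ ≤ 7 * √(1 + |t|) := by
  have h0 := abs_nonneg t
  have h5 : ‖riemannZeta (1 / 2 + I * t)‖ ≤ 7 * √(1 + |t|) := by
    rcases le_total 1 |t| with h | h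
    · refine (zeta_bound_sqrt t h).trans ?_
      gcongr; linarith
    · have : 1 ≤ √(1 + |t|) := Real.one_le_sqrt.mpr (by linarith)
      linarith [zeta_bound_lin t]
  rw [f_f, norm_mul]
  calc _ ≤ 7 * √(1 + |t|) * 1 := by gcongr; exact norm_Mf_le t
    _ = _ := mul_one _

theorem main2 : ∃ c : ℂ, Tendsto (fun N : ℝ =>
    ((∫ τ, (tent (2 * Real.pi * N ^ 2) τ : ℂ) * f_f τ) - c * (2 * Real.pi * N ^ 2 : ℝ)) /
      (N * √N : ℝ) - (-1) ^ ⌊N⌋₊ * (8 * (Real.pi : ℂ) ^ 2 * clamp (N - ⌊N⌋₊))) atTop (𝓝 0) := by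
  obtain ⟨κ, C1, h1⟩ := alt2
  obtain ⟨C3, hC3, h3⟩ := smooth_error
  obtain ⟨C4, hC4, h4⟩ := pole_bound
  set a : ℂ := (2 * √2 * Real.pi : ℝ) * cexp (I * Real.pi / 8) with ha
  set b : ℂ := c1 * g0 * cexp (-(I * Real.pi / 8)) with hb
  refine ⟨a * κ - b * (4 * Real.pi), ?_⟩
  have t0 := (Real.tendsto_sqrt_atTop.inv_tendsto_atTop.const_mul
    (C3 * 7 * 3 + ‖a‖ * (C1 + C1) + ‖b‖ * C4)).add sum_lim.norm
  rw [mul_zero, norm_zero, add_zero] at t0
  refine squeeze_zero_norm' ?_ t0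
  filter_upwards [eventually_ge_atTop 1] with N hN
  have hp := Real.pi_le_four
  have hp0 := Real.pi_pos
  have e0 := J_eq hN
  obtain ⟨b3, b4⟩ := h1 N hN
  set T := 2 * Real.pi * N ^ 2 with hT
  have hT0 : 0 ≤ T := by positivity
  have b1 : ‖Jf T f_f - ∫ τ, (tent T τ : ℂ) * f_f τ‖ ≤ C3 * 7 * (3 * N) := by
    refine (h3 T 7 f_f hT0 f_cont_f f_bound).trans ?_
    gcongr
    rw [Real.sqrt_le_iff]
    exact ⟨by linarith, by nlinarith [one_le_pow₀ hN (n := 2)]⟩
  have b5 := (h4 T hT0).trans (le_mul_of_one_le_right hC4 hN)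
  set V := ∫ τ, (tent T τ : ℂ) * f_f τ
  set n := ⌊N⌋₊
  set S1 := ∑ ν ∈ Finset.Icc 1 n, (-1 : ℝ) ^ ν * √ν * (T - 2 * Real.pi * ν ^ 2) with hS1
  set S2 := ∑ ν ∈ Finset.Icc 1 n, (-1 : ℝ) ^ ν * √ν with hS2
  have e2 : ∑ ν ∈ Finset.Icc 1 n, mainTerm T ν = a * (S1 - I * S2) := by
    rw [hS1, hS2, Complex.ofReal_sum, Complex.ofReal_sum, Finset.mul_sum, ← Finset.sum_sub_distrib,
      Finset.mul_sum]
    rfl
  set G := ∫ τ, (tent T τ : ℂ) * gam τ with hG
  have e3 : ∫ ν in Ioi (0 : ℝ), hf T ν = b * G := by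
    rw [integral_hf T hT0, pole_eq, hb]; ring
  rw [e2, e3] at e0
  change Jf T f_f = _ at e0
  set Z := ∑' m : ℤ, sZ N (m + n)
  set R := S1 - κ * T - (-1) ^ n * (Real.pi * (2 * (N - n) - 1)) * (N * √N) with hR
  have s0 : 0 < √N := Real.sqrt_pos.2 (by linarith)
  have s1 : ((N * √N : ℝ) : ℂ) ≠ 0 := ofReal_ne_zero.2 (by positivity)
  have e4 : (V - (a * κ - b * (4 * Real.pi)) * T) / (N * √N : ℝ) -
      (-1) ^ n * (8 * (Real.pi : ℂ) ^ 2 * clamp (N - n)) =
      (-(Jf T f_f - V) + a * (R - I * S2) - b * (G - 4 * Real.pi * T)) / (N * √N : ℝ) +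
      (Z / (N * √N : ℝ) - (-1) ^ n * (8 * (Real.pi : ℂ) ^ 2 * clamp (N - n) -
        a * (Real.pi * (2 * (N - n : ℝ) - 1)))) := by
    rw [e0, hR]
    generalize N * √N = w at s1
    push_cast
    field_simp
    ring
  rw [e4]
  refine (norm_add_le _ _).trans (add_le_add ?_ le_rfl)
  have b6 : ‖(R : ℂ) - I * S2‖ ≤ (C1 + C1) * N := by
    refine (norm_sub_le _ _).trans ?_
    rw [norm_mul, Complex.norm_I, one_mul, Complex.norm_real, Complex.norm_real, Real.norm_eq_abs,
      Real.norm_eq_abs]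
    linarith
  rw [norm_div, Complex.norm_real, Real.norm_of_nonneg (by positivity), Pi.inv_apply,
    div_le_iff₀ (by positivity), show ∀ K : ℝ, K * (√N)⁻¹ * (N * √N) = K * N from
      fun K => by field_simp]
  refine (norm_sub_le _ _).trans ?_
  have t1 := norm_add_le (-(Jf T f_f - V)) (a * (R - I * S2))
  rw [norm_neg, norm_mul] at t1
  rw [norm_mul]
  have t3 := mul_le_mul_of_nonneg_left b6 (norm_nonneg a)
  have t4 := mul_le_mul_of_nonneg_left b5 (norm_nonneg b)
  linarith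

theorem tail_eq (T : ℝ) (hT : 0 < T) :
    (∫ t in (0 : ℝ)..T, (T - t) * f_phi t) - (∫ t in Ioi (0 : ℝ), f_phi t) * T =
      -∫ t in Ioi (0 : ℝ), min t T * f_phi t := by
  have hcm : Continuous fun t : ℝ => min t T * f_phi t :=
    (continuous_id.min continuous_const).mul f_cont_phi
  have hTi : IntegrableOn (fun t : ℝ => T * f_phi t) (Ioi 0) := f_int_phi.const_mul T
  have hm : IntegrableOn (fun t : ℝ => min t T * f_phi t) (Ioi 0) :=
    Integrable.mono hTi hcm.aestronglyMeasurable ((ae_restrict_iff' measurableSet_Ioi).mpr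
      (Eventually.of_forall fun t ht => by
        rw [norm_mul, norm_mul, Real.norm_of_nonneg hT.le, Real.norm_of_nonneg (lt_min ht hT).le]
        exact mul_le_mul_of_nonneg_right (min_le_right _ _) (norm_nonneg _)))
  have hD : IntegrableOn (fun t : ℝ => T * f_phi t - min t T * f_phi t) (Ioi 0) := hTi.sub hm
  have hU : Ioc (0 : ℝ) T ∪ Ioi T = Ioi 0 := Ioc_union_Ioi_eq_Ioi hT.le
  have h1 : ∫ t in Ioi (0 : ℝ), (T * f_phi t - min t T * f_phi t) =
      ∫ t in (0 : ℝ)..T, (T - t) * f_phi t := by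
    rw [← hU, setIntegral_union (Ioc_disjoint_Ioi le_rfl) measurableSet_Ioi
      (hD.mono_set (hU ▸ subset_union_left)) (hD.mono_set (hU ▸ subset_union_right)),
      intervalIntegral.integral_of_le hT.le]
    have h2 : ∫ t in Ioi T, (T * f_phi t - min t T * f_phi t) = 0 := by
      refine setIntegral_eq_zero_of_forall_eq_zero fun t ht => ?_
      rw [min_eq_right (le_of_lt ht), sub_self]
    rw [h2, add_zero]
    refine setIntegral_congr_fun measurableSet_Ioc fun t ht => ?_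
    rw [min_eq_left ht.2]; ring
  rw [integral_sub hTi hm, integral_const_mul] at h1
  rw [← h1]; ring

theorem tail_o : (fun T : ℝ => (∫ t in (0 : ℝ)..T, (T - t) * f_phi t) -
    (∫ t in Ioi (0 : ℝ), f_phi t) * T) =o[atTop] fun T : ℝ => T ^ (3 / 4 : ℝ) := by
  have u := (tendsto_rpow_atTop (y := 3 / 4) (by norm_num)).inv_tendsto_atTop
  have t := tendsto_integral_filter_of_dominated_convergence (μ := volume.restrict (Ioi 0))
    (l := atTop) (F := fun T t : ℝ => min t T * f_phi t / T ^ (3 / 4 : ℝ)) (f := fun _ => 0)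
    (fun t => t ^ (1 / 4 : ℝ) * |f_phi t|)
    (Eventually.of_forall fun T => (((continuous_id.min continuous_const).mul
      f_cont_phi).div_const _).aestronglyMeasurable)
    ((eventually_gt_atTop 0).mono fun T hT => (ae_restrict_iff' measurableSet_Ioi).mpr
      (Eventually.of_forall fun t ht => by
        rw [norm_div, norm_mul, Real.norm_of_nonneg (lt_min ht hT).le,
          Real.norm_of_nonneg (r := T ^ _) (by positivity), div_le_iff₀ (by positivity),
          Real.norm_eq_abs, mul_right_comm, mul_comm (t ^ _)]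
        exact mul_le_mul_of_nonneg_right (f_min_le t T ht hT) (abs_nonneg _)))
    f_int_weight (Eventually.of_forall fun t => by
      have := u.const_mul (t * f_phi t)
      rw [mul_zero] at this
      refine this.congr' ((eventually_ge_atTop t).mono fun T hT => ?_)
      simp only [min_eq_left hT, Pi.inv_apply, div_eq_mul_inv])
  rw [integral_zero] at t
  refine isLittleO_of_tendsto' ((eventually_gt_atTop 0).mono fun T hT h =>
    absurd h (by positivity)) ?_
  have t' := t.neg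
  rw [neg_zero] at t'
  refine t'.congr' ((eventually_gt_atTop 0).mono fun T hT => ?_)
  simp only
  rw [tail_eq T hT, integral_div, neg_div]

theorem uniq {c : ℝ} (h : (fun T : ℝ => c * T) =O[atTop] fun T : ℝ => T ^ (3 / 4 : ℝ)) : c = 0 := by
  by_contra hc
  obtain ⟨C, hC⟩ := h.bound
  have t := (tendsto_rpow_atTop (y := 1 / 4) (by norm_num)).const_mul_atTop (abs_pos.2 hc)
  obtain ⟨T, ⟨h1, h2⟩, h3⟩ := ((hC.and (t.eventually_gt_atTop C)).and (eventually_gt_atTop 0)).exists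
  have e : T = T ^ (1 / 4 : ℝ) * T ^ (3 / 4 : ℝ) := by rw [← Real.rpow_add h3]; norm_num
  have p : 0 < T ^ (3 / 4 : ℝ) := by positivity
  rw [norm_mul, Real.norm_of_nonneg h3.le, Real.norm_of_nonneg p.le, Real.norm_eq_abs] at h1
  nth_rewrite 1 [e] at h1
  nlinarith [mul_lt_mul_of_pos_right h2 p]

theorem second : ∃ c : ℝ, c < 0 ∧
    (fun T : ℝ => hardyG T - c * T - 8 * Real.pi ^ 2 * (-1) ^ ⌊√(T / (2 * Real.pi))⌋₊ *
      (T / (2 * Real.pi)) ^ (3 / 4 : ℝ) *
        max (-1 / 4) (min (1 / 4) (Int.fract √(T / (2 * Real.pi)) - 1 / 2))) =o[atTop]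
      fun T : ℝ => T ^ (3 / 4 : ℝ) := by
  obtain ⟨c, hc⟩ := main2
  have hp := Real.pi_gt_three
  have hN : Tendsto (fun T : ℝ => √(T / (2 * Real.pi))) atTop atTop :=
    Real.tendsto_sqrt_atTop.comp (tendsto_id.atTop_div_const (by positivity))
  have hP : (fun T : ℝ => (T / (2 * Real.pi)) ^ (3 / 4 : ℝ)) =O[atTop] fun T => T ^ (3 / 4 : ℝ) :=
    IsBigO.of_bound' ((eventually_ge_atTop 0).mono fun T hT => by
      rw [Real.norm_of_nonneg (by positivity), Real.norm_of_nonneg (by positivity)]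
      exact Real.rpow_le_rpow (by positivity) (div_le_self hT (by linarith)) (by norm_num))
  set osc : ℝ → ℝ := fun T => 8 * Real.pi ^ 2 * (-1) ^ ⌊√(T / (2 * Real.pi))⌋₊ *
      (T / (2 * Real.pi)) ^ (3 / 4 : ℝ) *
        max (-1 / 4) (min (1 / 4) (Int.fract √(T / (2 * Real.pi)) - 1 / 2)) with hosc
  have h1 : (fun T : ℝ => (∫ t in (0 : ℝ)..T, ((T - t : ℝ) : ℂ) * (f_f t + f_f (-t))).re -
      c.re * T - osc T) =o[atTop] fun T : ℝ => (T / (2 * Real.pi)) ^ (3 / 4 : ℝ) := by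
    refine isLittleO_of_tendsto' ((eventually_gt_atTop 0).mono fun T hT h =>
      absurd h (by positivity)) ?_
    have t := (continuous_re.tendsto 0).comp (hc.comp hN)
    refine t.congr' ((eventually_gt_atTop 0).mono fun T hT => ?_)
    have q0 : 0 < T / (2 * Real.pi) := by positivity
    have e0 := tent_split T hT.le f_f f_cont_f
    simp only [Complex.real_smul] at e0
    have e1 : 2 * Real.pi * √(T / (2 * Real.pi)) ^ 2 = T := by rw [Real.sq_sqrt q0.le]; field_simp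
    have e2 : √(T / (2 * Real.pi)) * √√(T / (2 * Real.pi)) = (T / (2 * Real.pi)) ^ (3 / 4 : ℝ) := by
      rw [Real.sqrt_eq_rpow, Real.sqrt_eq_rpow, ← Real.rpow_mul q0.le, ← Real.rpow_add q0]
      norm_num
    have e3 : ∀ (n : ℕ) (x : ℝ), (-1) ^ n * (8 * (Real.pi : ℂ) ^ 2 * x) =
        ((-1) ^ n * (8 * Real.pi ^ 2 * x) : ℝ) := fun n x => by push_cast; rfl
    have p : 0 < (T / (2 * Real.pi)) ^ (3 / 4 : ℝ) := by positivity
    simp only [Function.comp_apply, hosc]
    rw [e1, e2, e0, e3, sub_re, ofReal_re, div_ofReal_re, sub_re, re_mul_ofReal, clamp,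
      Int.fract, ← natCast_floor_eq_intCast_floor (Real.sqrt_nonneg _)]
    field_simp
  have h2 : (fun T : ℝ => hardyG T - (c.re + ∫ t in Ioi (0 : ℝ), f_phi t) * T - osc T) =o[atTop]
      fun T : ℝ => T ^ (3 / 4 : ℝ) :=
    ((h1.trans_isBigO hP).add tail_o).congr_left fun T => by rw [f_G_split]; ring
  refine ⟨_, ?_, h2⟩
  obtain ⟨L, C, hL, h⟩ := main_estimate
  obtain ⟨c', hc', h3⟩ := assemble L C hL h
  have h4 : osc =O[atTop] fun T : ℝ => (T / (2 * Real.pi)) ^ (3 / 4 : ℝ) :=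
    IsBigO.of_bound (8 * Real.pi ^ 2) (Eventually.of_forall fun T => by
      simp only [hosc, norm_mul, norm_pow, norm_neg, norm_one, one_pow, mul_one, Real.norm_ofNat,
        Real.norm_of_nonneg Real.pi_pos.le]
      refine mul_le_of_le_one_right (by positivity) (abs_le.2 ⟨?_, ?_⟩)
      · exact le_max_of_le_left (by norm_num)
      · exact max_le (by norm_num) (min_le_of_left_le (by norm_num)))
  have h5 := uniq (c := (c.re + ∫ t in Ioi (0 : ℝ), f_phi t) - c')
    (((h3.sub h2.isBigO).sub (h4.trans hP)).congr_left fun T => by ring)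
  linarith

end Pool.Agent.MP_6f2ed2_nt.H52
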