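import Pool.Agent.MP_6f2ed2_nt.H52.Limit

/-! The remainder terms and their limit. -/

namespace Pool.Agent.MP_6f2ed2_nt.H52

open Complex MeasureTheory Set Filter Topology Pool.Agent.MP_6f2ed2_nt.H1

/-- the remainder of a single term -/
noncomputable def sN (N : ℝ) (ν : ℕ) : ℂ :=
  hf (2 * Real.pi * N ^ 2) ν - (if ν ≤ ⌊N⌋₊ then mainTerm (2 * Real.pi * N ^ 2) ν else 0)

/-- the constant in front -/
noncomputable def AA : ℂ := -(c1 * cexp (I * Real.pi / 4) * 4)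

theorem sqrt_T {N : ℝ} (hN : 0 ≤ N) : √(2 * Real.pi * N ^ 2 / (2 * Real.pi)) = N := by
  rw [mul_div_cancel_left₀ _ (by positivity), Real.sqrt_sq hN]

theorem norm_AA : ‖AA‖ ≤ 4 := by
  rw [AA, norm_neg, norm_mul, norm_mul, Complex.norm_exp, Complex.norm_ofNat]
  have := norm_c1
  simp only [div_ofNat_re, mul_re, I_re, ofReal_re, zero_mul, I_im, ofReal_im, mul_zero,
    sub_self, zero_div, Real.exp_zero, mul_one]
  linarith

theorem c1_mul : c1 * cexp (I * Real.pi / 4) = (√2 : ℝ) / 2 * cexp (I * Real.pi / 8) := by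
  have a1 : cexp (-(I * Real.pi / 8)) * cexp (I * Real.pi / 4) = cexp (I * Real.pi / 8) := by
    rw [← Complex.exp_add]; congr 1; ring
  have a2 : ((√2 : ℝ) : ℂ)⁻¹ = (√2 : ℝ) / 2 := by
    have : ((√2 : ℝ) : ℂ) * (√2 : ℝ) = 2 := by
      rw [← Complex.ofReal_mul, Real.mul_self_sqrt (by norm_num)]; norm_num
    have h0 : ((√2 : ℝ) : ℂ) ≠ 0 := by simp
    field_simp
    linear_combination -this
  rw [c1, mul_assoc, a1, a2]

theorem sN_le : ∃ C : ℝ, 0 ≤ C ∧ ∀ (N : ℝ) (ν : ℕ), 1 ≤ N → 1 ≤ ν →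
    ‖sN N ν‖ ≤ C * N * (√ν * (1 / (1 + ((ν : ℝ) - N) ^ 2) + 1 / (ν : ℝ) ^ 2)) := by
  obtain ⟨C, hC, h⟩ := hf_approx
  refine ⟨C * 3, by positivity, fun N ν hN hν => ?_⟩
  have hp := Real.pi_le_four
  have hp0 := Real.pi_pos
  have := h (2 * Real.pi * N ^ 2) ν (by nlinarith [one_le_pow₀ hN (n := 2)]) hν
  rw [sqrt_T (by linarith)] at this
  refine this.trans ?_
  rw [mul_assoc C 3]
  gcongr
  rw [Real.sqrt_le_iff]
  exact ⟨by linarith, by nlinarith [sq_nonneg N]⟩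

theorem sN_eq : ∃ C : ℝ, ∀ (N : ℝ) (ν : ℕ), 0 ≤ N → 1 ≤ ν →
    ‖sN N ν - AA * (√ν : ℝ) * (-1) ^ ν * ∫ y, Kr (Real.pi * (ν : ℝ) ^ 2)
      (2 * Real.pi * N ^ 2 - 2 * (Real.pi * (ν : ℝ) ^ 2)) y‖ ≤ C * √ν := by
  obtain ⟨C2, hC2, h2⟩ := Il_bound
  refine ⟨4 * (3 * C2 + Real.exp 5 * Real.pi), fun N ν hN hν => ?_⟩
  have hpi := Real.pi_gt_three
  have hν1 : (1 : ℝ) ≤ ν := by exact_mod_cast hν
  set T := 2 * Real.pi * N ^ 2 with hT
  have hT0 : 0 ≤ T := by positivity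
  set r := Real.pi * (ν : ℝ) ^ 2 with hr
  have hr1 : 1 ≤ r := by nlinarith [one_le_pow₀ hν1 (n := 2)]
  have hiff : (ν ≤ ⌊N⌋₊) ↔ 0 ≤ T - 2 * r := by
    rw [Nat.le_floor_iff hN, sub_nonneg, hT, hr, mul_assoc, mul_le_mul_iff_right₀ two_pos,
      mul_le_mul_iff_right₀ Real.pi_pos, pow_le_pow_iff_left₀ (by linarith) hN two_ne_zero]
  have b2 := P_bound (T - 2 * r)
  set P : ℂ := if 0 ≤ T - 2 * r then 2 * Real.pi * I * (1 / 2 + I * (T - 2 * r : ℝ) / 2) else 0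
    with hP
  have e2 : (if ν ≤ ⌊N⌋₊ then mainTerm T ν else 0) = AA * (√ν : ℝ) * ((-1) ^ ν * P) := by
    simp only [hiff, hP]
    split_ifs with h
    · rw [mainTerm, AA, c1_mul, hr]
      push_cast
      linear_combination (4 * (√2 : ℝ) * Real.pi * cexp (I * Real.pi / 8) * (√ν : ℝ) * (-1) ^ ν *
        (T / 2 - Real.pi * ν ^ 2) : ℂ) * I_sq
    · simp
  have e3 := Il_shift (r := r) (by linarith) T
  rw [hr, exp_neg_pi_sq, ← hr] at e3
  have e4 : sN N ν - AA * (√ν : ℝ) * (-1) ^ ν * ∫ y, Kr r (T - 2 * r) y =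
      -AA * (√ν : ℝ) * (2 * Il r 0 - Il r (-T) - (-1) ^ ν * (Il 0 (T - 2 * r) - P)) := by
    rw [sN, ← hT, e2, hf_contour T hT0 (by linarith), ← hr, mul_assoc _ ((-1 : ℂ) ^ ν), ← e3, AA]
    ring
  have b0 := (h2 r 0 (by linarith) le_rfl).trans (div_le_self hC2 hr1)
  have b1 := (h2 r (-T) (by linarith) (by linarith)).trans (div_le_self hC2 hr1)
  have b3 : ‖2 * Il r 0 - Il r (-T) - (-1) ^ ν * (Il 0 (T - 2 * r) - P)‖ ≤
      3 * C2 + Real.exp 5 * Real.pi := by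
    refine (norm_sub_le _ _).trans ?_
    have := norm_sub_le (2 * Il r 0) (Il r (-T))
    rw [norm_mul, Complex.norm_ofNat] at this
    rw [norm_mul, norm_pow, norm_neg, norm_one, one_pow, one_mul]
    linarith
  rw [e4, norm_mul, norm_mul, norm_neg, Complex.norm_real, Real.norm_of_nonneg (Real.sqrt_nonneg _)]
  calc _ ≤ 4 * √ν * (3 * C2 + Real.exp 5 * Real.pi) := by gcongr; exact norm_AA
    _ = _ := by ring

section

variable {α : Type} {l : Filter α} {N : α → ℝ} {ν : α → ℕ} {B : ℝ}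

theorem rho_lim (hN : Tendsto N l atTop) (hx : ∀ᶠ a in l, |N a - ν a| ≤ B) :
    Tendsto (fun a => √(ν a) / √(N a)) l (𝓝 1) := by
  have t := ((tendsto_const_nhds (x := (1 : ℝ))).sub (small_mul hN hx)).sqrt
  rw [sub_zero, Real.sqrt_one] at t
  refine t.congr' ?_
  filter_upwards [hN.eventually_gt_atTop 0] with a h
  rw [← Real.sqrt_div' _ h.le]
  congr 1
  field_simp
  ring

theorem lim_sN [l.IsCountablyGenerated] (hN : Tendsto N l atTop) (hx : ∀ᶠ a in l, |N a - ν a| ≤ B) :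
    Tendsto (fun a => sN (N a) (ν a) / (N a * √(N a) : ℝ) - AA * (-1) ^ ν a * Ft (N a - ν a)) l
      (𝓝 0) := by
  obtain ⟨C, hC⟩ := sN_eq
  have t0 := rho_lim hN hx
  have t1 := (lim_core hN hx).norm
  simp only [sub_sub_cancel] at t1
  have t := ((t0.const_mul C).mul hN.inv_tendsto_atTop).add
    (((t0.mul t1).add ((t0.sub_const 1).abs.mul_const (4 * Real.pi))).const_mul 4)
  simp only [mul_zero, norm_zero, sub_self, abs_zero, zero_mul, add_zero] at t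
  refine squeeze_zero_norm' ?_ t
  filter_upwards [hx, hN.eventually_ge_atTop (B + 1), hN.eventually_gt_atTop 0] with a h1 h2 h3
  have hν : 1 ≤ ν a := by exact_mod_cast (by linarith [(abs_le.1 h1).2] : (1 : ℝ) ≤ ν a)
  have b := hC (N a) (ν a) h3.le hν
  set K := ∫ y, Kr (Real.pi * (ν a : ℝ) ^ 2)
      (2 * Real.pi * N a ^ 2 - 2 * (Real.pi * (ν a : ℝ) ^ 2)) y
  have s0 : 0 < √(N a) := Real.sqrt_pos.2 h3
  have s1 : ((√(N a) : ℝ) : ℂ) ≠ 0 := ofReal_ne_zero.2 s0.ne'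
  have s2 : (N a : ℂ) ≠ 0 := ofReal_ne_zero.2 h3.ne'
  have e : sN (N a) (ν a) / (N a * √(N a) : ℝ) - AA * (-1) ^ ν a * Ft (N a - ν a) =
      (sN (N a) (ν a) - AA * (√(ν a) : ℝ) * (-1) ^ ν a * K) / (N a * √(N a) : ℝ) +
      AA * (-1) ^ ν a * ((√(ν a) / √(N a) : ℝ) * ((N a : ℂ)⁻¹ * K - Ft (N a - ν a)) +
        (√(ν a) / √(N a) - 1 : ℝ) * Ft (N a - ν a)) := by
    push_cast; field_simp; ring
  rw [e]
  refine (norm_add_le _ _).trans (add_le_add ?_ ?_)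
  · rw [norm_div, Complex.norm_real, Real.norm_of_nonneg (by positivity), Pi.inv_apply,
      div_le_iff₀ (by positivity)]
    exact b.trans (le_of_eq (by field_simp))
  · rw [norm_mul, norm_mul, norm_pow, norm_neg, norm_one, one_pow, mul_one]
    refine mul_le_mul norm_AA ((norm_add_le _ _).trans (add_le_add ?_ ?_)) (norm_nonneg _)
      (by norm_num)
    · rw [norm_mul, Complex.norm_real, Real.norm_of_nonneg (by positivity)]
    · rw [norm_mul, Complex.norm_real, Real.norm_eq_abs]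
      exact mul_le_mul_of_nonneg_left (norm_Ft _) (abs_nonneg _)

end

theorem Ft_decay : ∃ C : ℝ, 0 ≤ C ∧ ∀ x : ℝ, ‖AA * Ft x‖ ≤ C * (1 / (1 + x ^ 2)) := by
  obtain ⟨C, hC, h⟩ := sN_le
  refine ⟨C, hC, fun x => ?_⟩
  have hN : Tendsto (fun n : ℕ => (n : ℝ) + x) atTop atTop :=
    tendsto_atTop_add_const_right _ _ tendsto_natCast_atTop_atTop
  have hx : ∀ᶠ n : ℕ in atTop, |(n : ℝ) + x - (id n : ℕ)| ≤ |x| :=
    Eventually.of_forall fun n => by simp
  have t0 := rho_lim hN hx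
  have t1 := (lim_sN hN hx).norm
  have t2 : Tendsto (fun n : ℕ => 1 / (n : ℝ) ^ 2) atTop (𝓝 0) :=
    tendsto_const_nhds.div_atTop ((tendsto_pow_atTop two_ne_zero).comp tendsto_natCast_atTop_atTop)
  have t := ((t0.mul (t2.const_add (1 / (1 + x ^ 2)))).const_mul C).add t1
  rw [norm_zero, add_zero, add_zero, one_mul] at t
  refine ge_of_tendsto t ?_
  filter_upwards [hN.eventually_ge_atTop 1, eventually_ge_atTop 1] with n h1 h2
  simp only [id, add_sub_cancel_left]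
  have b := h (n + x) n h1 h2
  rw [sub_add_cancel_left, neg_sq] at b
  have e : ‖AA * Ft x‖ = ‖AA * (-1) ^ n * Ft x‖ := by simp
  have s0 : 0 < √(n + x) := Real.sqrt_pos.2 (by linarith)
  rw [e]
  refine (norm_le_norm_add_norm_sub (sN (n + x) n / ((n + x) * √(n + x) : ℝ)) _).trans
    (add_le_add ?_ le_rfl)
  rw [norm_div, Complex.norm_real, Real.norm_of_nonneg (by positivity), div_le_iff₀ (by positivity)]
  exact b.trans (le_of_eq (by field_simp))

end Pool.Agent.MP_6f2ed2_nt.H52
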