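import Pool.Agent.MP_6f2ed2_nt.H52.Near
import Pool.Agent.MP_6f2ed2_nt.H1.AltSums

/-! Evaluation of the limit sum by Poisson summation. -/

namespace Pool.Agent.MP_6f2ed2_nt.H52

open Complex MeasureTheory Set Filter Topology Asymptotics Pool.Agent.MP_6f2ed2_nt.H1
open scoped FourierTransform

/-- the terms of the odd series -/
noncomputable def wt (u : ℝ) (k : ℤ) : ℂ :=
  cexp (2 * Real.pi * I * u * (1 / 2 + k)) / (1 / 2 + k : ℂ) ^ 2

theorem half_ne (k : ℤ) : (1 / 2 + k : ℝ) ≠ 0 := fun h => by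
  have : ((2 * k + 1 : ℤ) : ℝ) = 0 := by push_cast; linarith
  have := Int.cast_eq_zero.1 this
  omega

theorem hasSum_wt {u : ℝ} (h0 : 0 ≤ u) (h1 : u ≤ 1) :
    HasSum (wt u) ((Real.pi : ℂ) ^ 2 * (1 - 2 * u)) := by
  have a := hasSum_one_div_pow_mul_fourier_mul_bernoulliFun (k := 2) le_rfl (x := u / 2)
    ⟨by linarith, by linarith⟩
  have b := hasSum_one_div_pow_mul_fourier_mul_bernoulliFun (k := 2) le_rfl (x := u / 2 + 1 / 2)
    ⟨by linarith, by linarith⟩
  have c := (a.sub b).mul_left 2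
  simp only [fourier_coe_apply, bernoulliFun_two] at c
  have inj : Function.Injective fun k : ℤ => 2 * k + 1 := fun a b h => by
    simp only at h; omega
  have e : ∀ n : ℤ, cexp (2 * Real.pi * I * n * (u / 2 + 1 / 2 : ℝ) / (1 : ℝ)) =
      cexp (2 * Real.pi * I * n * (u / 2 : ℝ) / (1 : ℝ)) * (-1) ^ n := fun n => by
    rw [← Complex.exp_pi_mul_I, ← Complex.exp_int_mul, ← Complex.exp_add]
    congr 1; push_cast; ring
  have d := (inj.hasSum_iff (fun n hn => ?_)).2 c
  · refine Eq.mp (congrArg₂ (fun f a => HasSum f a) (funext fun k => ?_) ?_) d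
    · have h2 : (1 / 2 + k : ℂ) ≠ 0 := by
        have := ofReal_ne_zero.2 (half_ne k)
        push_cast at this
        exact this
      have h3 : ((2 * k + 1 : ℤ) : ℂ) = 2 * (1 / 2 + k) := by push_cast; ring
      rw [Function.comp_apply, e, Odd.neg_one_zpow ⟨k, rfl⟩, h3, wt,
        show 2 * Real.pi * I * (2 * (1 / 2 + k)) * (u / 2 : ℝ) / (1 : ℝ) =
          2 * Real.pi * I * u * (1 / 2 + k) by push_cast; ring]
      generalize (1 / 2 + k : ℂ) = z at h2
      field_simp
      ring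
    · rw [mul_pow, I_sq]
      push_cast
      simp only [Nat.factorial]
      push_cast
      ring
  · have : Even n := Int.not_odd_iff_even.1 fun ⟨k, hk⟩ => hn ⟨k, hk.symm⟩
    rw [e, this.neg_one_zpow, mul_one, sub_self, mul_zero]

theorem wt_shift (u : ℝ) (k : ℤ) : wt (u + 1) k = -wt u k := by
  rw [wt, wt, ← neg_div, ← Complex.exp_add_pi_mul_I]
  congr 1
  exact exp_eq_exp_iff_exists_int.2 ⟨k, by push_cast; ring⟩

/-- the truncated linear function -/
noncomputable def clamp (θ : ℝ) : ℝ := max (-1 / 4) (min (1 / 4) (θ - 1 / 2))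

theorem hasSum_two {θ : ℝ} (h0 : 0 ≤ θ) (h1 : θ ≤ 1) :
    HasSum (fun k => wt (θ + 1 / 4) k + wt (θ - 1 / 4) k)
      (-(4 * (Real.pi : ℂ) ^ 2 * clamp θ)) := by
  rcases le_total θ (1 / 4) with h | h
  · have := (hasSum_wt (u := θ + 1 / 4) (by linarith) (by linarith)).sub
      (hasSum_wt (u := θ - 1 / 4 + 1) (by linarith) (by linarith))
    simp only [wt_shift, sub_neg_eq_add] at this
    rw [clamp, min_eq_right (by linarith), max_eq_left (by linarith)]
    exact Eq.mp (congrArg (fun a => HasSum _ a) (by push_cast; ring)) this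
  rcases le_total θ (3 / 4) with h' | h'
  · have := (hasSum_wt (u := θ + 1 / 4) (by linarith) (by linarith)).add
      (hasSum_wt (u := θ - 1 / 4) (by linarith) (by linarith))
    rw [clamp, min_eq_right (by linarith), max_eq_right (by linarith)]
    exact Eq.mp (congrArg (fun a => HasSum _ a) (by push_cast; ring)) this
  · have := (hasSum_wt (u := θ - 3 / 4) (by linarith) (by linarith)).neg.add
      (hasSum_wt (u := θ - 1 / 4) (by linarith) (by linarith))
    simp only [← wt_shift, show θ - 3 / 4 + 1 = θ + 1 / 4 by ring] at this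
    rw [clamp, min_eq_left (by linarith), max_eq_right (by linarith)]
    exact Eq.mp (congrArg (fun a => HasSum _ a) (by push_cast; ring)) this

theorem exp_id (k : ℤ) :
    (√2 : ℝ) * (cexp (I * Real.pi / 8) * cexp (-(I * (Real.pi * (1 / 2 + k) ^ 2 / 2 : ℝ)))) =
      cexp (2 * Real.pi * I * (1 / 4) * (1 / 2 + k)) +
        cexp (2 * Real.pi * I * (-(1 / 4)) * (1 / 2 + k)) := by
  have s : ((√2 : ℝ) : ℂ) = cexp ((Real.pi / 4 : ℝ) * I) + cexp (-(Real.pi / 4 : ℝ) * I) := by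
    rw [← Complex.two_cos, ← ofReal_cos, Real.cos_pi_div_four]; push_cast; ring
  rw [s, add_mul, ← Complex.exp_add, ← Complex.exp_add, ← Complex.exp_add]
  rcases Int.even_or_odd' k with ⟨q, rfl | rfl⟩
  · congr 1
    · exact exp_eq_exp_iff_exists_int.2 ⟨-q - q ^ 2, by push_cast; ring⟩
    · exact exp_eq_exp_iff_exists_int.2 ⟨-q ^ 2, by push_cast; ring⟩
  · rw [add_comm]
    congr 1
    · exact exp_eq_exp_iff_exists_int.2 ⟨-1 - 2 * q - q ^ 2, by push_cast; ring⟩
    · exact exp_eq_exp_iff_exists_int.2 ⟨-q - q ^ 2, by push_cast; ring⟩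

theorem key_le (x y : ℝ) (h : |y| ≤ |x| + 1) : √(1 + |x|) * (1 / (1 + x ^ 2)) ≤ 8 * e_h y := by
  have h2 : 1 / (1 + x ^ 2) ≤ 2 / (1 + |x|) ^ 2 := by
    rw [div_le_div_iff₀ (by positivity) (by positivity), ← sq_abs x]
    nlinarith [sq_nonneg (|x| - 1)]
  have h3 := e_h_shift x y (by linarith [abs_nonneg x])
  calc _ ≤ √(1 + |x|) * (2 / (1 + |x|) ^ 2) := by gcongr
    _ = 2 * e_h x := by rw [e_h_eq]; ring
    _ ≤ _ := by linarith

theorem Ft_le : ∃ C : ℝ, 0 ≤ C ∧ ∀ θ : ℝ, |θ| ≤ 1 → ∀ m : ℤ, ‖AA * Ft (θ - m)‖ ≤ C * e_h m := by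
  obtain ⟨C, hC, h⟩ := Ft_decay
  refine ⟨C * 8, by positivity, fun θ hθ m => (h _).trans ?_⟩
  rw [mul_assoc]
  refine mul_le_mul_of_nonneg_left (le_trans ?_ (key_le (θ - m) m ?_)) hC
  · exact le_mul_of_one_le_left (by positivity)
      (Real.one_le_sqrt.2 (by linarith [abs_nonneg (θ - m)]))
  · linarith [abs_sub_abs_le_abs_sub (m : ℝ) θ, abs_sub_comm θ m]

theorem pois {θ : ℝ} (h0 : 0 ≤ θ) (h1 : θ ≤ 1) :
    ∑' m : ℤ, AA * Ft (θ - m) * (-1) ^ m = 8 * (Real.pi : ℂ) ^ 2 * clamp θ -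
      (2 * √2 * Real.pi : ℝ) * cexp (I * Real.pi / 8) * (Real.pi * (2 * θ - 1)) := by
  obtain ⟨C, hC, h⟩ := Ft_le
  set f : ℝ → ℂ := fun y => AA * (cexp (2 * Real.pi * I * θ * y) * gg y) with hf
  have hF : ∀ n : ℤ, 𝓕 f n = AA * Ft (θ - n) := fun n => by
    rw [Real.fourier_real_eq_integral_exp_smul, Ft, ← integral_const_mul]
    congr 1
    funext y
    rw [hf, smul_eq_mul, mul_left_comm, ← mul_assoc (cexp _), ← Complex.exp_add]
    congr 3
    push_cast
    ring
  have p := Real.tsum_eq_tsum_fourier_of_rpow_decay_of_summable (f := f)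
    (continuous_const.mul (Continuous.mul (by fun_prop) cont_gg)) (b := 2) one_lt_two
    (IsBigO.of_bound 16 (by
      filter_upwards [(isCompact_singleton (x := (0 : ℝ))).compl_mem_cocompact] with y hy
      have hy' : 0 < y ^ 2 := sq_pos_of_ne_zero hy
      rw [hf, norm_mul, norm_mul, norm_ch, one_mul, Real.norm_of_nonneg (by positivity),
        Real.rpow_neg (abs_nonneg _), Real.rpow_two, sq_abs]
      calc _ ≤ 4 * (4 * (y ^ 2)⁻¹) := by
            gcongr
            · exact norm_AA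
            · exact (norm_gg y).trans (by gcongr; linarith)
        _ = _ := by ring))
    (by
      simp only [hF]
      exact (e_h_summable.mul_left C).of_norm_bounded (h θ (abs_le.2 ⟨by linarith, h1⟩))) (1 / 2)
  have e1 : ∀ n : ℤ, fourier n (((1 / 2 : ℝ)) : UnitAddCircle) = (-1) ^ n := fun n => by
    rw [fourier_coe_apply, ← Complex.exp_pi_mul_I, ← Complex.exp_int_mul]
    congr 1; push_cast; ring
  simp only [hF, e1] at p
  have q := ((hasSum_two h0 h1).mul_left (-2)).sub ((hasSum_wt h0 h1).mul_left AA)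
  rw [← p]
  refine Eq.trans (tsum_congr fun k => ?_) (q.tsum_eq.trans ?_)
  · have e2 : ∀ v : ℂ, cexp (2 * Real.pi * I * (θ + v) * (1 / 2 + k)) =
        cexp (2 * Real.pi * I * θ * (1 / 2 + k)) * cexp (2 * Real.pi * I * v * (1 / 2 + k)) :=
      fun v => by rw [← Complex.exp_add]; congr 1; ring
    have e3 := exp_id k
    simp only [hf, gg_eq (half_ne k), wt, AA, c1_mul]
    push_cast at e3 ⊢
    rw [e2, sub_eq_add_neg (θ : ℂ), e2]
    linear_combination (-2 * cexp (2 * Real.pi * I * θ * (1 / 2 + k)) / (1 / 2 + k : ℂ) ^ 2) * e3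
  · rw [AA, c1_mul]; push_cast; ring

end Pool.Agent.MP_6f2ed2_nt.H52
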