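import Pool.Agent.MP_6f2ed2_nt.H1.Terms

/-! The saddle integral moved to the real line. -/

namespace Pool.Agent.MP_6f2ed2_nt.H52

open Complex MeasureTheory Set Filter Topology Pool.Agent.MP_6f2ed2_nt.H1

theorem strip (f : ℂ → ℂ) (y₁ y₂ : ℝ) (h12 : y₁ ≤ y₂) (ρ : ℂ) (B : ℝ)
    (hr : ∀ R : ℝ, 1 ≤ R → rectInt f (-R) R y₁ y₂ = ρ)
    (hB : ∀ x y : ℝ, 1 ≤ |x| → y₁ ≤ y → y ≤ y₂ → ‖f (x + y * I)‖ ≤ B / x ^ 2)
    (h1 : Integrable fun x : ℝ => f (x + y₁ * I)) (h2 : Integrable fun x : ℝ => f (x + y₂ * I)) :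
    (∫ x : ℝ, f (x + y₁ * I)) - ∫ x : ℝ, f (x + y₂ * I) = ρ := by
  have v : ∀ g : ℝ → ℝ, (∀ R, |g R| = |R|) →
      Tendsto (fun R : ℝ => I * ∫ y in y₁..y₂, f (g R + y * I)) atTop (𝓝 0) := by
    intro g hg
    have t : Tendsto (fun R : ℝ => B / R ^ 2 * |y₂ - y₁|) atTop (𝓝 (0 * |y₂ - y₁|)) :=
      (tendsto_const_nhds.div_atTop (tendsto_pow_atTop two_ne_zero)).mul_const _
    rw [zero_mul] at t
    refine squeeze_zero_norm' ?_ t
    filter_upwards [eventually_ge_atTop (1 : ℝ)] with R hR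
    rw [norm_mul, norm_I, one_mul]
    refine intervalIntegral.norm_integral_le_of_norm_le_const fun y hy => ?_
    rw [uIoc_of_le h12] at hy
    have := hB (g R) y (by rw [hg, abs_of_nonneg (by linarith)]; exact hR) hy.1.le hy.2
    rwa [← sq_abs (g R), hg, sq_abs] at this
  have t1 := intervalIntegral_tendsto_integral h1 tendsto_neg_atTop_atBot tendsto_id
  have t2 := intervalIntegral_tendsto_integral h2 tendsto_neg_atTop_atBot tendsto_id
  have t3 := ((t1.sub t2).add (v id fun _ => rfl)).sub (v (fun R => -R) fun R => abs_neg R)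
  rw [add_zero, sub_zero] at t3
  refine tendsto_nhds_unique t3 (tendsto_const_nhds.congr' ?_)
  filter_upwards [eventually_ge_atTop (1 : ℝ)] with R hR
  exact (hr R hR).symm

theorem norm_Phi_le {r : ℝ} (hr : 0 ≤ r) (T x : ℝ) {y : ℝ} (h1 : -(Real.pi / 2) ≤ y) (h2 : y ≤ 1)
    (h3 : r = 0 ∨ y ≤ 0) : ‖Phi r T (x + y * I)‖ ≤ Real.exp (5 + |T|) := by
  rw [norm_Phi, Real.exp_le_exp]
  have hp := Real.pi_le_four
  have a1 : r * Real.exp x * Real.sin y ≤ 0 := by
    rcases h3 with rfl | h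
    · simp
    · exact mul_nonpos_of_nonneg_of_nonpos (by positivity)
        (Real.sin_nonpos_of_nonpos_of_neg_pi_le h (by linarith [Real.pi_pos]))
  have a2 : |y| ≤ 2 := abs_le.2 ⟨by linarith, by linarith⟩
  have a3 : y ^ 2 ≤ 4 := by nlinarith [sq_abs y, abs_nonneg y]
  have a4 : -(T * y) ≤ |T| * 2 :=
    (neg_le_abs _).trans (by rw [abs_mul]; gcongr)
  nlinarith [sq_nonneg (x - 1 / 4)]

theorem div_sq_le {Φ : ℂ → ℂ} {x y B : ℝ} (hx : 1 ≤ |x|) (h : ‖Φ (x + y * I)‖ ≤ B) :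
    ‖Φ (x + y * I) / ((x : ℂ) + y * I) ^ 2‖ ≤ B / x ^ 2 := by
  have h0 : 0 < x ^ 2 := by nlinarith [sq_abs x]
  have hB := (norm_nonneg _).trans h
  rw [norm_div, norm_sq_xy]
  gcongr
  nlinarith [sq_nonneg y]

theorem line_le {Φ : ℂ → ℂ} {y B : ℝ} (hy : 1 ≤ y ^ 2) (h : ∀ x : ℝ, ‖Φ (x + y * I)‖ ≤ B) :
    ‖∫ x : ℝ, Φ (x + y * I) / ((x : ℂ) + y * I) ^ 2‖ ≤ B * Real.pi := by
  refine (norm_integral_le_of_norm_le (integrable_inv_one_add_sq.const_mul B)
    (Eventually.of_forall fun x => ?_)).trans (le_of_eq ?_)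
  · have hB := (norm_nonneg _).trans (h x)
    rw [norm_div, norm_sq_xy, ← div_eq_mul_inv]
    exact div_le_div₀ hB (h x) (by positivity) (by linarith)
  · rw [integral_const_mul, integral_univ_inv_one_add_sq]

theorem P_bound (S : ℝ) :
    ‖Il 0 S - (if 0 ≤ S then 2 * Real.pi * I * (1 / 2 + I * S / 2) else 0)‖ ≤
      Real.exp 5 * Real.pi := by
  have hp := Real.pi_gt_three
  have hp4 := Real.pi_le_four
  split_ifs with h
  · have e := strip (fun z => Phi 0 S z / z ^ 2) (-(Real.pi / 2)) 1 (by linarith) _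
      (Real.exp (5 + |S|))
      (fun R hR => rectInt_residue _ (differentiable_Phi 0 S) _ _ _ _ (by linarith) (by linarith)
        (by linarith) one_pos)
      (fun x y hx h1 h2 => div_sq_le hx (norm_Phi_le le_rfl S x h1 h2 (Or.inl rfl)))
      (integrable_Il 0 S le_rfl)
      (integrable_line _ (differentiable_Phi 0 S).continuous 1 _ one_ne_zero
        fun x => norm_Phi_le le_rfl S x (by linarith) le_rfl (Or.inl rfl))
    rw [deriv_Phi] at e
    have e2 : Il 0 S - 2 * Real.pi * I * (1 / 2 + I * S / 2) =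
        ∫ x : ℝ, Phi 0 S (x + (1 : ℝ) * I) / ((x : ℂ) + (1 : ℝ) * I) ^ 2 := by
      simp only [ofReal_zero, mul_zero, neg_zero, Complex.exp_zero, one_mul, sub_zero] at e
      rw [← e, Il]
      simp only [zl]
      ring
    rw [e2]
    refine line_le (by norm_num) fun x => ?_
    rw [norm_Phi, Real.exp_le_exp]
    nlinarith [sq_nonneg (x - 1 / 4)]
  · rw [sub_zero]
    refine line_le (y := -(Real.pi / 2)) (by nlinarith) fun x => ?_
    rw [norm_Phi, Real.exp_le_exp]
    nlinarith [sq_nonneg (x - 1 / 4), not_le.1 h]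

theorem osc_le {φ y c : ℝ} (hc : 2 ≤ c) (h : |y| ≤ 1 → |φ| ≤ c * y ^ 2) :
    ‖(cexp (-(I * φ)) - 1) / (y : ℂ) ^ 2‖ ≤ 2 * c * (1 + y ^ 2)⁻¹ := by
  rcases eq_or_ne y 0 with rfl | hy
  · simp only [ofReal_zero, ne_eq, OfNat.ofNat_ne_zero, not_false_eq_true, zero_pow, div_zero,
      norm_zero]
    positivity
  have h0 : 0 < y ^ 2 := by positivity
  have e : cexp (-(I * φ)) = cexp (I * (-φ : ℝ)) := by push_cast; ring_nf
  rw [norm_div, norm_pow, norm_real, Real.norm_eq_abs, sq_abs, ← div_eq_mul_inv,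
    div_le_div_iff₀ h0 (by positivity), e]
  rcases le_total |y| 1 with h1 | h1
  · have a1 := Real.norm_exp_I_mul_ofReal_sub_one_le (x := -φ)
    rw [Real.norm_eq_abs, abs_neg] at a1
    have a2 : y ^ 2 ≤ 1 := by nlinarith [sq_abs y, abs_nonneg y]
    calc _ ≤ c * y ^ 2 * 2 := mul_le_mul (a1.trans (h h1)) (by linarith) (by positivity)
          (by positivity)
      _ = _ := by ring
  · have a1 : ‖cexp (I * (-φ : ℝ)) - 1‖ ≤ 2 := by
      refine (norm_sub_le _ _).trans ?_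
      rw [mul_comm, norm_exp_ofReal_mul_I, norm_one]; norm_num
    have a2 : 1 ≤ y ^ 2 := by nlinarith [sq_abs y, abs_nonneg y]
    calc _ ≤ 2 * (2 * y ^ 2) := mul_le_mul a1 (by linarith) (by positivity) (by norm_num)
      _ ≤ _ := by nlinarith

/-- the integrand on the real line -/
noncomputable def Kr (r S x : ℝ) : ℂ :=
  Phi 0 S x * ((cexp (-(I * (r * (Real.exp x - 1 - x) : ℝ))) - 1) / (x : ℂ) ^ 2)

theorem norm_Phi_real (S x : ℝ) : ‖Phi 0 S x‖ ≤ 3 := by
  have := norm_Phi 0 S x 0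
  simp only [ofReal_zero, zero_mul, add_zero] at this
  rw [this]
  refine le_trans (Real.exp_le_exp.2 (show _ ≤ 1 by nlinarith [sq_nonneg (x - 1 / 4)])) ?_
  linarith [Real.exp_one_lt_d9]

theorem Il_shift {r : ℝ} (hr : 0 ≤ r) (T : ℝ) :
    Il r T - cexp (-(I * r)) * Il 0 (T - 2 * r) = cexp (-(I * r)) * ∫ x : ℝ, Kr r (T - 2 * r) x := by
  have hp := Real.pi_gt_three
  set S := T - 2 * r with hS
  set Ψ : ℂ → ℂ := fun z => Phi r T z - cexp (-(I * r)) * Phi 0 S z with hΨ
  have hd : Differentiable ℂ Ψ :=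
    (differentiable_Phi r T).sub ((differentiable_Phi 0 S).const_mul _)
  have h0 : Ψ 0 = 0 := by simp [hΨ, Phi]
  have h1 : deriv Ψ 0 = 0 := by
    have := (((differentiable_Phi r T) 0).hasDerivAt.sub
      (((differentiable_Phi 0 S) 0).hasDerivAt.const_mul (cexp (-(I * r))))).deriv
    rw [deriv_Phi, deriv_Phi] at this
    refine this.trans ?_
    rw [hS]
    push_cast
    simp only [mul_zero, neg_zero, Complex.exp_zero]
    ring
  set g := dslope (dslope Ψ 0) 0 with hg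
  have hd1 : Differentiable ℂ (dslope Ψ 0) := by
    rw [← differentiableOn_univ, differentiableOn_dslope univ_mem]
    exact hd.differentiableOn
  have hd2 : Differentiable ℂ g := by
    rw [← differentiableOn_univ, hg, differentiableOn_dslope univ_mem]
    exact hd1.differentiableOn
  have key : ∀ z : ℂ, z ≠ 0 → g z = Ψ z / z ^ 2 := by
    intro z hz
    rw [hg, dslope_of_ne _ hz, slope_def_field, dslope_of_ne _ hz, slope_def_field, dslope_same,
      h0, h1]
    field_simp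
    ring
  have n1 : ‖cexp (-(I * r))‖ = 1 := by rw [norm_exp]; simp
  have hB : ∀ x y : ℝ, -(Real.pi / 2) ≤ y → y ≤ 0 →
      ‖Ψ (x + y * I)‖ ≤ Real.exp (5 + |T|) + Real.exp (5 + |S|) := fun x y a b => by
    refine (norm_sub_le _ _).trans (add_le_add (norm_Phi_le hr T x a (by linarith) (Or.inr b)) ?_)
    rw [norm_mul, n1, one_mul]
    exact norm_Phi_le le_rfl S x a (by linarith) (Or.inr b)
  have e1 : ∀ x : ℝ, g (x + (-(Real.pi / 2) : ℝ) * I) =
      Phi r T (zl x) / zl x ^ 2 - cexp (-(I * r)) * (Phi 0 S (zl x) / zl x ^ 2) := fun x => by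
    change g (zl x) = _
    rw [key _ (zl_ne x), hΨ]; ring
  have e2 : ∀ x : ℝ, x ≠ 0 → g (x + (0 : ℝ) * I) = cexp (-(I * r)) * Kr r S x := fun x hx => by
    rw [ofReal_zero, zero_mul, add_zero, key _ (ofReal_ne_zero.2 hx), hΨ, Kr]
    have : Phi r T x = cexp (-(I * r)) * Phi 0 S x *
        cexp (-(I * (r * (Real.exp x - 1 - x) : ℝ))) := by
      rw [Phi, Phi, ← Complex.exp_add, ← Complex.exp_add, hS]
      congr 1
      push_cast
      ring
    simp only [this]
    ring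
  have e3 : (fun x : ℝ => g (x + (0 : ℝ) * I)) =ᵐ[volume] fun x => cexp (-(I * r)) * Kr r S x := by
    filter_upwards [compl_mem_ae_iff.2 (measure_singleton (0 : ℝ))] with x hx using e2 x hx
  have i1 : Integrable fun x : ℝ => g (x + (-(Real.pi / 2) : ℝ) * I) := by
    simp only [e1]
    exact (integrable_Il r T hr).sub ((integrable_Il 0 S le_rfl).const_mul _)
  have i2 : Integrable fun x : ℝ => g (x + (0 : ℝ) * I) := by
    refine (integrable_inv_one_add_sq.const_mul (3 * (2 * (r + 2)))).mono'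
      (hd2.continuous.comp cont_horiz).aestronglyMeasurable ?_
    filter_upwards [e3] with x hx
    rw [hx, norm_mul, n1, one_mul, Kr, norm_mul, mul_assoc]
    refine mul_le_mul (norm_Phi_real S x) (osc_le (by linarith) fun h => ?_) (norm_nonneg _)
      (by norm_num)
    rw [abs_mul, abs_of_nonneg hr]
    exact mul_le_mul (by linarith) (Real.abs_exp_sub_one_sub_id_le h) (abs_nonneg _) (by linarith)
  have e := strip g (-(Real.pi / 2)) 0 (by linarith) 0 _
    (fun R _ => rectInt_eq_zero g _ _ _ _ hd2.differentiableOn)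
    (fun x y hx a b => by
      rw [key _ (ne_zero_of_re (by rintro rfl; norm_num at hx))]
      exact div_sq_le hx (hB x y a b)) i1 i2
  rw [integral_congr_ae e3, integral_const_mul, sub_eq_zero] at e
  rw [← e]
  simp only [e1]
  rw [integral_sub (integrable_Il r T hr) ((integrable_Il 0 S le_rfl).const_mul _),
    integral_const_mul, Il, Il]

end Pool.Agent.MP_6f2ed2_nt.H52
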