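import Pool.Agent.MP_6f2ed2_nt.H52.Pois
import Pool.Agent.MP_6f2ed2_nt.H1.MainEst

/-! The sum of all remainder terms. -/

namespace Pool.Agent.MP_6f2ed2_nt.H52

open Complex MeasureTheory Set Filter Topology Pool.Agent.MP_6f2ed2_nt.H1

/-- the remainder terms indexed by integers -/
noncomputable def sZ (N : ℝ) (k : ℤ) : ℂ := if 1 ≤ k then sN N k.toNat else 0

theorem sZ_le : ∃ C : ℝ, 0 ≤ C ∧ ∀ N : ℝ, 1 ≤ N → ∀ m : ℤ, ‖sZ N (m + ⌊N⌋₊)‖ ≤
    C * N * (8 * √N * e_h m + 4 * e_h (m + ⌊N⌋₊ : ℤ)) := by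
  obtain ⟨C, hC, h⟩ := sN_le
  refine ⟨C, hC, fun N hN m => ?_⟩
  have p1 := e_h_nonneg m
  have p2 := e_h_nonneg (m + ⌊N⌋₊ : ℤ)
  rw [sZ]
  split_ifs with hk
  · obtain ⟨ν, e⟩ := Int.eq_ofNat_of_zero_le (zero_le_one.trans hk)
    have hν : 1 ≤ ν := by omega
    have hν1 : (1 : ℝ) ≤ ν := by exact_mod_cast hν
    have e' : (m : ℝ) + ⌊N⌋₊ = ν := by exact_mod_cast e
    rw [e, Int.toNat_natCast, Int.cast_natCast]
    refine (h N ν hN hν).trans (mul_le_mul_of_nonneg_left ?_ (by positivity))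
    rw [mul_add]
    refine add_le_add ?_ ?_
    · have h1 : √ν ≤ √N * √(1 + |ν - N|) := by
        rw [← Real.sqrt_mul (by linarith)]
        exact Real.sqrt_le_sqrt (by nlinarith [le_abs_self (ν - N), abs_nonneg (ν - N)])
      have h2 := key_le (ν - N) m (by
        have := Nat.floor_le (by linarith : 0 ≤ N)
        have := Nat.lt_floor_add_one N
        rw [abs_le]
        constructor <;> linarith [le_abs_self (ν - N), neg_abs_le (ν - N)])
      calc _ ≤ √N * √(1 + |ν - N|) * (1 / (1 + (ν - N) ^ 2)) := by gcongr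
        _ ≤ √N * (8 * e_h m) := by rw [mul_assoc]; gcongr
        _ = _ := by ring
    · rw [e_h_eq, Nat.abs_cast, mul_one_div, mul_div_assoc',
        div_le_div_iff₀ (by positivity) (by positivity)]
      calc _ ≤ √(1 + ν) * (4 * (ν : ℝ) ^ 2) := by
            gcongr
            · linarith
            · nlinarith
        _ = _ := by ring
  · rw [norm_zero]; positivity

theorem e_h_has (L : ℤ) : HasSum (fun m : ℤ => e_h (m + L : ℤ)) (∑' k : ℤ, e_h k) :=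
  (Equiv.addRight L).hasSum_iff.2 e_h_summable.hasSum

theorem sZ_summable {N : ℝ} (hN : 1 ≤ N) : Summable fun m : ℤ => sZ N (m + ⌊N⌋₊) := by
  obtain ⟨C, -, h⟩ := sZ_le
  exact (((e_h_summable.mul_left _).add ((e_h_has _).summable.mul_left _)).mul_left _).of_norm_bounded
    (h N hN)

theorem J_eq {N : ℝ} (hN : 1 ≤ N) :
    Jf (2 * Real.pi * N ^ 2) (fun t => riemannZeta (1 / 2 + I * t) * Mf t) =
      (∑ ν ∈ Finset.Icc 1 ⌊N⌋₊, mainTerm (2 * Real.pi * N ^ 2) ν) +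
        (∑' m : ℤ, sZ N (m + ⌊N⌋₊)) - ∫ ν in Ioi (0 : ℝ), hf (2 * Real.pi * N ^ 2) ν := by
  set T := 2 * Real.pi * N ^ 2 with hT
  obtain ⟨D, hD⟩ := Jf_zeta T
  have s1 : HasSum (sZ N) (∑' m : ℤ, sZ N (m + ⌊N⌋₊)) :=
    (Equiv.addRight (⌊N⌋₊ : ℤ)).hasSum_iff.1 (sZ_summable hN).hasSum
  have s2 : HasSum (sZ N ∘ (Nat.cast : ℕ → ℤ)) _ :=
    (Nat.cast_injective.hasSum_iff (f := sZ N) fun k hk => if_neg fun h => hk
      ⟨k.toNat, Int.toNat_of_nonneg (zero_le_one.trans h)⟩).2 s1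
  have t1 := s2.tendsto_sum_nat.comp (tendsto_add_atTop_nat 1)
  have t2 := s2.summable.tendsto_atTop_zero
  have t3 := intervalIntegral_tendsto_integral_Ioi 0 (integrableOn_hf T (by positivity))
    tendsto_natCast_atTop_atTop
  have t4 := ((t1.const_add (∑ ν ∈ Finset.Icc 1 ⌊N⌋₊, mainTerm T ν)).sub (t2.div_const 2)).sub t3
  rw [zero_div, sub_zero] at t4
  have t5 : Tendsto (fun X : ℕ => D / √X) atTop (𝓝 0) :=
    tendsto_const_nhds.div_atTop (Real.tendsto_sqrt_atTop.comp tendsto_natCast_atTop_atTop)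
  refine tendsto_nhds_unique (tendsto_iff_norm_sub_tendsto_zero.2 (squeeze_zero'
    (Eventually.of_forall fun _ => norm_nonneg _) ?_ t5)) t4
  filter_upwards [eventually_ge_atTop (⌊N⌋₊ + 1)] with X hX
  refine le_trans (le_of_eq ?_) (hD X (by omega))
  rw [norm_sub_rev, intervalIntegral.integral_of_le (by positivity)]
  have e1 : ∀ ν : ℕ, 1 ≤ ν → sZ N ν = sN N ν := fun ν h => by
    rw [sZ, if_pos (by exact_mod_cast h), Int.toNat_natCast]
  have e2 : (sZ N ∘ (Nat.cast : ℕ → ℤ)) X = hf T X := by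
    rw [Function.comp_apply, e1 X (by omega), sN, if_neg (by omega), sub_zero]
  have e3 : ∑ ν ∈ Finset.Icc 1 ⌊N⌋₊, mainTerm T ν =
      ∑ ν ∈ Finset.Icc 1 X, (if ν ≤ ⌊N⌋₊ then mainTerm T ν else 0) := by
    rw [← Finset.sum_filter]
    congr 1; ext ν
    simp only [Finset.mem_Icc, Finset.mem_filter]
    omega
  have e4 : ∑ ν ∈ Finset.range (X + 1), (sZ N ∘ (Nat.cast : ℕ → ℤ)) ν = ∑ ν ∈ Finset.Icc 1 X, sN N ν := by
    rw [Finset.range_eq_Ico, Finset.sum_eq_sum_Ico_succ_bot (by omega), Function.comp_apply, sZ,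
      if_neg (by simp), zero_add]
    exact Finset.sum_congr rfl fun ν hν => e1 ν (Finset.mem_Icc.1 hν).1
  rw [e2, Function.comp_apply (f := fun n => ∑ i ∈ Finset.range n, (sZ N ∘ (Nat.cast : ℕ → ℤ)) i), e3, e4,
    ← Finset.sum_add_distrib]
  simp only [sN, ← hT, add_sub_cancel]

theorem tann {α : Type} {l : Filter α} {f : α → ℤ → ℂ} {b : ℤ → ℝ} (hb : Summable b)
    (b0 : ∀ m, 0 ≤ b m) {e : α → ℤ → ℝ} {s : α → ℝ} (he : ∀ a, HasSum (e a) (s a))
    (e0 : ∀ a m, 0 ≤ e a m) (hs : Tendsto s l (𝓝 0)) (h : ∀ᶠ a in l, ∀ m, ‖f a m‖ ≤ b m + e a m)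
    (hf : ∀ m, Tendsto (f · m) l (𝓝 0)) : Tendsto (fun a => ∑' m, f a m) l (𝓝 0) := by
  have hd : ∀ᶠ a in l, ∀ m, ‖max (‖f a m‖ - e a m) 0‖ ≤ b m := h.mono fun a h m => by
    rw [Real.norm_of_nonneg (le_max_right _ _)]
    exact max_le (by linarith [h m]) (b0 m)
  have t := (tendsto_tsum_of_dominated_convergence (g := fun _ => (0 : ℝ)) hb
    (fun m => squeeze_zero (fun _ => le_max_right _ _)
      (fun a => max_le (sub_le_self _ (e0 a m)) (norm_nonneg _))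
      (tendsto_zero_iff_norm_tendsto_zero.1 (hf m))) hd).add hs
  rw [tsum_zero, add_zero] at t
  refine squeeze_zero_norm' ?_ t
  filter_upwards [hd] with a h
  exact tsum_of_norm_bounded ((hb.of_norm_bounded h).hasSum.add (he a)) fun m => by
    linarith [le_max_left (‖f a m‖ - e a m) 0]

theorem sum_lim : Tendsto (fun N : ℝ => (∑' m : ℤ, sZ N (m + ⌊N⌋₊)) / (N * √N : ℝ) -
    (-1) ^ ⌊N⌋₊ * (8 * (Real.pi : ℂ) ^ 2 * clamp (N - ⌊N⌋₊) - (2 * √2 * Real.pi : ℝ) *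
      cexp (I * Real.pi / 8) * (Real.pi * (2 * (N - ⌊N⌋₊ : ℝ) - 1)))) atTop (𝓝 0) := by
  obtain ⟨C, hC, h⟩ := sZ_le
  obtain ⟨C', hC', h'⟩ := Ft_le
  have fr : ∀ N : ℝ, 1 ≤ N → 0 ≤ N - ⌊N⌋₊ ∧ N - ⌊N⌋₊ ≤ 1 := fun N hN =>
    ⟨by linarith [Nat.floor_le (by linarith : 0 ≤ N)], by linarith [Nat.lt_floor_add_one N]⟩
  have nz : ∀ N : ℝ, 1 ≤ N → ∀ m : ℤ, ‖AA * Ft (N - ⌊N⌋₊ - m) * (-1) ^ m‖ ≤ C' * e_h m :=
    fun N hN m => by
      rw [norm_mul, norm_zpow, norm_neg, norm_one, one_zpow, mul_one]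
      exact h' _ (abs_le.2 ⟨by linarith [(fr N hN).1], (fr N hN).2⟩) m
  have t0 := (Real.tendsto_sqrt_atTop.inv_tendsto_atTop.const_mul (4 * C)).mul_const
    (∑' k : ℤ, e_h k)
  rw [mul_zero, zero_mul] at t0
  have t := tann (l := atTop) (f := fun (N : ℝ) (m : ℤ) => sZ N (m + ⌊N⌋₊) / (N * √N : ℝ) -
      (-1) ^ ⌊N⌋₊ * (AA * Ft (N - ⌊N⌋₊ - m) * (-1) ^ m))
    (e_h_summable.mul_left (8 * C + C')) (fun m => by have := e_h_nonneg m; positivity)
    (fun N => (e_h_has ⌊N⌋₊).mul_left (4 * C * (√N)⁻¹))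
    (fun N m => by have := e_h_nonneg (m + ⌊N⌋₊ : ℤ); positivity) t0 ?_ ?_
  · refine t.congr' ?_
    filter_upwards [eventually_ge_atTop 1] with N hN
    rw [Summable.tsum_sub ((sZ_summable hN).div_const _)
      (((e_h_summable.mul_left C').of_norm_bounded (nz N hN)).mul_left _), tsum_div_const,
      tsum_mul_left, pois (fr N hN).1 (fr N hN).2]
  · filter_upwards [eventually_ge_atTop 1] with N hN m
    have s0 : 0 < √N := Real.sqrt_pos.2 (by linarith)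
    have b1 : ‖sZ N (m + ⌊N⌋₊) / (N * √N : ℝ)‖ ≤
        8 * C * e_h m + 4 * C * (√N)⁻¹ * e_h (m + ⌊N⌋₊ : ℤ) := by
      rw [norm_div, Complex.norm_real, Real.norm_of_nonneg (by positivity),
        div_le_iff₀ (by positivity)]
      exact (h N hN m).trans (le_of_eq (by field_simp))
    refine (norm_sub_le _ _).trans ?_
    rw [norm_mul, norm_pow, norm_neg, norm_one, one_pow, one_mul]
    linarith [nz N hN m]
  · intro m
    have ev : ∀ᶠ N : ℝ in atTop, 1 ≤ N ∧ 1 ≤ m + ⌊N⌋₊ ∧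
        (((m + ⌊N⌋₊).toNat : ℕ) : ℝ) = m + ⌊N⌋₊ := by
      filter_upwards [eventually_ge_atTop 1,
        tendsto_nat_floor_atTop.eventually_ge_atTop (m.natAbs + 1)] with N h1 h2
      refine ⟨h1, by omega, ?_⟩
      exact_mod_cast Int.toNat_of_nonneg (by omega)
    refine (lim_sN (N := id) (ν := fun N => (m + ⌊N⌋₊).toNat) (B := |(m : ℝ)| + 1) tendsto_id
      (ev.mono fun N h => ?_)).congr' (ev.mono fun N h => ?_)
    · rw [h.2.2, id, abs_le]
      constructor <;> linarith [fr N h.1, le_abs_self (m : ℝ), neg_abs_le (m : ℝ)]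
    · have e : (-1 : ℂ) ^ (m + ⌊N⌋₊).toNat = (-1) ^ m * (-1) ^ ⌊N⌋₊ := by
        rw [← zpow_natCast, Int.toNat_of_nonneg (zero_le_one.trans h.2.1),
          zpow_add₀ (by norm_num), zpow_natCast]
      simp only [id, sZ, if_pos h.2.1, h.2.2, e]
      rw [show N - (m + ⌊N⌋₊) = N - ⌊N⌋₊ - m by ring]
      ring

end Pool.Agent.MP_6f2ed2_nt.H52
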